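import Pool.Agent.Lib.MP_76b24b_lcL.Or
import Pool.Agent.Lib.MP_76b24b_lcL.One
import Pool.Agent.Lib.MP_76b24b_lcL.Add
import Pool.Agent.Lib.MP_76b24b_lcL.Pop
import Pool.Agent.Lib.MP_76b24b_lcL.Pre
import Pool.Agent.Lib.MP_76b24b_lcL.Naive
import Pool.Agent.Lib.MP_76b24b_lcL.Part
import Pool.Agent.Lib.MP_76b24b_lcL.Sort
import Pool.Agent.Lib.MP_76b24b_lcL.Seg
import Pool.Agent.Lib.MP_76b24b_lcL.KeyOr
import Pool.Agent.Lib.MP_76b24b_lcL.Mat
import Pool.Agent.Lib.MP_76b24b_lcL.Exp1
import Pool.Agent.Lib.MP_76b24b_lcL.Exp2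
import Pool.Agent.Lib.MP_76b24b_lcL.Gat
import Pool.Agent.Lib.MP_76b24b_lcL.Sca
import Pool.Agent.Lib.MP_76b24b_lcL.Thr
import Pool.Agent.Lib.MP_76b24b_lcL.Loc
import Pool.Agent.Lib.MP_76b24b_lcL.Act
import Pool.Agent.Lib.MP_76b24b_lcL.FA
import Pool.Agent.Lib.MP_76b24b_lcL.FB
import Pool.Agent.Lib.MP_76b24b_lcL.Front
import Pool.Agent.Lib.MP_76b24b_lcL.BA
import Pool.Agent.Lib.MP_76b24b_lcL.BB
import Pool.Agent.Lib.MP_76b24b_lcL.Back
import Pool.Agent.Lib.MP_76b24b_lcL.Core
import Pool.Agent.Lib.MP_76b24b_lcL.Sparse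
import Pool.Agent.Lib.MP_76b24b_lcL.Cnt
import Pool.Agent.Lib.MP_76b24b_lcL.Lst
import Pool.Agent.Lib.MP_76b24b_lcL.Chg
import Pool.Agent.Lib.MP_76b24b_lcL.Top
import Pool.Agent.Lib.MP_76b24b_lcL.Final

/-!
# MP_76b24b_lc: linear-size circuits for payloads with few alternations

There is a constant `C` such that for every `n` a circuit with at most `C n + C` gates computes `f` on all
words `x` of length `n` whose subsequence of letters `0`, `1` has at most `n / (log n) ^ 4` alternations.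
An alternation is a pair `i < j` with `x i, x j ≠ 2`, `x i ≠ x j` and `x l = 2` for all `l` between.
The circuits have the format of the frozen statement of the problem.
-/

set_option autoImplicit false

namespace Pool.Agent.Results.MP_76b24b_lc.FewAlternations

open Pool.Agent.Lin

theorem result :
    ∃ C : ℕ, ∀ n : ℕ, ∃ s : ℕ, s ≤ C * n + C ∧
      ∃ (op : Fin s → Bool → Bool → Bool)
        (left right : Fin s → (Fin n × Fin 2) ⊕ Fin s)
        (out : Fin n → Fin 2 → (Fin n × Fin 2) ⊕ Fin s),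
        (∀ g h : Fin s, left g = Sum.inr h → h < g) ∧
        (∀ g h : Fin s, right g = Sum.inr h → h < g) ∧
        ∀ (x : Fin n → Fin 3) (v : (Fin n × Fin 2) ⊕ Fin s → Bool),
          (Finset.univ.filter fun p : Fin n × Fin n => p.1 < p.2 ∧ x p.1 ≠ 2 ∧ x p.2 ≠ 2 ∧
            x p.1 ≠ x p.2 ∧ ∀ l : Fin n, p.1 < l → l < p.2 → x l = 2).card *
              Nat.log 2 n ^ 4 ≤ n →
          (∀ i : Fin n, v (Sum.inl (i, 0)) = decide (x i = 1) ∧
                        v (Sum.inl (i, 1)) = decide (x i = 2)) →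
          (∀ g : Fin s, v (Sum.inr g) = op g (v (left g)) (v (right g))) →
          ∀ j : Fin n,
            v (out j 0) = decide ((((List.ofFn x).filter (fun a => a != (2 : Fin 3))) ++
                ((List.ofFn x).filter (fun a => a == (2 : Fin 3)))).getD j.val 0 = 1) ∧
            v (out j 1) = decide ((((List.ofFn x).filter (fun a => a != (2 : Fin 3))) ++
                ((List.ofFn x).filter (fun a => a == (2 : Fin 3)))).getD j.val 0 = 2) :=
  have hMat : S_Mat := tMat tOr tOne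
  have hGat : S_Gat := tGat tOr
  have hPop : S_Pop := tPop tAdd
  have hPre : S_Pre := tPre tAdd hPop
  have hKey : S_KeyOr := tKeyOr tOr (tSort (tPart tNaive)) tSeg
  have hFront : S_Front := tFront (tFA tOr hPre hMat hGat) (tFB tAdd (tLoc tNaive tThr))
  have hBack : S_Back := tBack (tBA hMat hGat) (tBB hKey) (tSca tOr)
  have hCore : S_Core := tCore tOr hPre (tAct tNaive tSeg) hFront hBack
  have hSparse : S_Sparse := tSparse hCore (tExp tExp1) tNaive
  final (tTop hSparse (tCnt hPop tThr) tLst tChg)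

end Pool.Agent.Results.MP_76b24b_lc.FewAlternations
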